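import Mathlib

set_option autoImplicit false

namespace Pool.Agent.Results.MP_2568f3_co.Counter

/-- sum of the `j` smallest terms of `c` -/
def pre {k : ℕ} (c : Fin k → ℕ) (j : ℕ) : ℕ := (((List.ofFn c).insertionSort (· ≤ ·)).take j).sum

/-- degree of the vertex `v` of the side `V` (second coordinate) -/
def deg {n : ℕ} (F : Finset (Fin n × Fin n)) (v : Fin n) : ℕ := (F.filter fun e => e.2 = v).card

theorem result : ¬ ∀ k n : ℕ, 1 ≤ k → 1 ≤ n → ∀ F : Fin k → Finset (Fin n × Fin n),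
    (∀ j ∈ Finset.Icc 1 k, j * (j - 1) * n < pre (fun i => (F i).card) j) →
    ∃ u : Fin k → Fin n, Function.Injective u ∧
      ∀ j ∈ Finset.Icc 1 k, j * (j - 1) < pre (fun i => deg (F i) (u i)) j := fun h =>
  absurd (h 3 5 (by norm_num) (by norm_num) ![{(0, 0)}, Finset.univ.filter fun e => e.2 = 0 ∨ e.1 < 2,
    Finset.univ.filter fun e => e.2 = 0 ∨ e.1 < 3] (by decide +kernel)) (by decide +kernel)

end Pool.Agent.Results.MP_2568f3_co.Counter
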